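import Pool.Agent.U115.GD.Stm
import Pool.Agent.Y475.CQ.HAL

/-!
# GD-HAL: the logarithmic density for a quadratic character (helper158)

Generalization of `Pool.Agent.Y475.CQ.HAL` (helper475). The characters are indexed by natural
numbers: `0` the character modulo `4`, `1` the character modulo `8`, `2` the Jacobi symbol modulo the
product of `W`, and `l ∈ L` the Jacobi symbol modulo `l`.
-/

set_option autoImplicit false
set_option linter.unusedVariables false

open scoped Classical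

namespace Pool.Agent.U158.GD

open Finset
open Pool.Agent.Y703.CQ (nr)
open Pool.Agent.U115.GD
open Pool.Agent.Y475.CQ (c0 c1 cJ c0_mod c1_mod cJ_mod leg main_le tsum_le part_le sum_zero
  pow_small zeta_le)

/-- the characters -/
noncomputable def cd (M : ℕ) (i : ℕ) : ℕ →* ℝ :=
  if i = 0 then c0 else if i = 1 then c1 else if i = 2 then cJ M else cJ i

theorem cd_0 (M : ℕ) : cd M 0 = c0 := by unfold cd; rw [if_pos rfl]

theorem cd_1 (M : ℕ) : cd M 1 = c1 := by
  unfold cd; rw [if_neg (by norm_num), if_pos rfl]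

theorem cd_2 (M : ℕ) : cd M 2 = cJ M := by
  unfold cd; rw [if_neg (by norm_num), if_neg (by norm_num), if_pos rfl]

theorem cd_l (M l : ℕ) (h : 3 ≤ l) : cd M l = cJ l := by
  unfold cd; rw [if_neg (by omega), if_neg (by omega), if_neg (by omega)]

theorem cd_val (M : ℕ) (i : ℕ) (n : ℕ) : cd M i n = 0 ∨ cd M i n = 1 ∨ cd M i n = -1 := by
  have hJ : ∀ M n : ℕ, cJ M n = 0 ∨ cJ M n = 1 ∨ cJ M n = -1 := by
    intro M n
    rcases jacobiSym.trichotomy (n : ℤ) M with h | h | h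
    · left; show ((jacobiSym (n : ℤ) M : ℤ) : ℝ) = 0; rw [h]; simp
    · right; left; show ((jacobiSym (n : ℤ) M : ℤ) : ℝ) = 1; rw [h]; simp
    · right; right; show ((jacobiSym (n : ℤ) M : ℤ) : ℝ) = -1; rw [h]; simp
  unfold cd
  split_ifs
  · show ((ZMod.χ₄ (n : ZMod 4) : ℤ) : ℝ) = 0 ∨ _ = 1 ∨ _ = -1
    have : ∀ z : ZMod 4, ZMod.χ₄ z = 0 ∨ ZMod.χ₄ z = 1 ∨ ZMod.χ₄ z = -1 := by decide
    rcases this (n : ZMod 4) with h | h | h
    · left; rw [h]; simp
    · right; left; show ((ZMod.χ₄ (n : ZMod 4) : ℤ) : ℝ) = 1; rw [h]; simp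
    · right; right; show ((ZMod.χ₄ (n : ZMod 4) : ℤ) : ℝ) = -1; rw [h]; simp
  · show ((ZMod.χ₈ (n : ZMod 8) : ℤ) : ℝ) = 0 ∨ _ = 1 ∨ _ = -1
    have : ∀ z : ZMod 8, ZMod.χ₈ z = 0 ∨ ZMod.χ₈ z = 1 ∨ ZMod.χ₈ z = -1 := by decide
    rcases this (n : ZMod 8) with h | h | h
    · left; rw [h]; simp
    · right; left; show ((ZMod.χ₈ (n : ZMod 8) : ℤ) : ℝ) = 1; rw [h]; simp
    · right; right; show ((ZMod.χ₈ (n : ZMod 8) : ℤ) : ℝ) = -1; rw [h]; simp
  · exact hJ M n
  · exact hJ i n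

/-- the index set without the last character -/
def U0 (L : Finset ℕ) : Finset ℕ := insert 0 (insert 1 L)

/-- the index set -/
def UU (L : Finset ℕ) : Finset ℕ := insert 2 (U0 L)

/-- the fixed part of the period -/
def AP (L : Finset ℕ) : ℕ := 8 * ∏ l ∈ L, l

section

variable {G : Cfg}

theorem L3 (h : Ok G) {l : ℕ} (hl : l ∈ G.L) : 3 ≤ l := by
  obtain ⟨h1, h2, _⟩ := h.hL l hl
  have := h1.two_le
  omega

theorem two_not (h : Ok G) : (2 : ℕ) ∉ U0 G.L := by
  unfold U0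
  rw [mem_insert, mem_insert]
  rintro (h1 | h1 | h1)
  · omega
  · omega
  · exact (h.hL 2 h1).2.1 rfl

theorem card_U0 (h : Ok G) : (U0 G.L).card = G.L.card + 2 := by
  unfold U0
  have h1 : (1 : ℕ) ∉ G.L := fun h1 => by have := L3 h h1; omega
  have h0 : (0 : ℕ) ∉ insert 1 G.L := by
    rw [mem_insert]
    rintro (h2 | h2)
    · omega
    · have := L3 h h2; omega
  rw [card_insert_of_notMem h0, card_insert_of_notMem h1]

theorem card_UU (h : Ok G) : (UU G.L).card = G.L.card + 3 := by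
  unfold UU
  rw [card_insert_of_notMem (two_not h), card_U0 h]

theorem AP_pos (h : Ok G) : 0 < AP G.L :=
  Nat.mul_pos (by norm_num) (prod_pos fun l hl => (h.hL l hl).1.pos)

/-- congruent modulo the period -/
theorem cd_mod1 (h : Ok G) (M i a b : ℕ) (hi : i ∈ UU G.L) (hA : a ≡ b [MOD AP G.L])
    (hM : i = 2 → a ≡ b [MOD M]) : cd M i a = cd M i b := by
  unfold UU U0 at hi
  rw [mem_insert, mem_insert, mem_insert] at hi
  have h8 : 8 ∣ AP G.L := dvd_mul_right _ _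
  rcases hi with rfl | rfl | rfl | hi
  · rw [cd_2]; exact cJ_mod M a b (hM rfl)
  · rw [cd_0]; exact c0_mod a b (hA.of_dvd ((by norm_num : 4 ∣ 8).trans h8))
  · rw [cd_1]; exact c1_mod a b (hA.of_dvd h8)
  · rw [cd_l M i (L3 h hi)]
    exact cJ_mod i a b (hA.of_dvd (dvd_mul_of_dvd_right (dvd_prod_of_mem (fun l => l) hi) _))

theorem cd_mod (h : Ok G) (M : ℕ) (V : Finset ℕ) (hV : V ⊆ UU G.L) (a b : ℕ)
    (hA : a ≡ b [MOD AP G.L]) (hM : 2 ∈ V → a ≡ b [MOD M]) :
    (∏ i ∈ V, cd M i) a = (∏ i ∈ V, cd M i) b := by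
  rw [MonoidHom.finsetProd_apply, MonoidHom.finsetProd_apply]
  refine prod_congr rfl fun i hi => ?_
  exact cd_mod1 h M i a b (hV hi) hA fun e => hM (e ▸ hi)

theorem abs_cd (M : ℕ) (V : Finset ℕ) (n : ℕ) : |(∏ i ∈ V, cd M i) n| ≤ 1 := by
  rw [MonoidHom.finsetProd_apply, abs_prod]
  refine prod_le_one (fun _ _ => abs_nonneg _) fun i _ => ?_
  rcases cd_val M i n with h | h | h <;> rw [h] <;> norm_num

/-- the product is `-1` if one character is `-1` and the others are one -/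
theorem prod_neg (M : ℕ) (V : Finset ℕ) (j : ℕ) (hj : j ∈ V) (k : ℕ)
    (h1 : cd M j k = -1) (h2 : ∀ i ∈ V, i ≠ j → cd M i k = 1) : (∏ i ∈ V, cd M i) k = -1 := by
  rw [MonoidHom.finsetProd_apply, prod_eq_single_of_mem j hj h2, h1]

/-- a nonresidue modulo `v` congruent to one modulo `R` -/
theorem exK (v R : ℕ) (hvp : v.Prime) (hv2 : v ≠ 2) (hc : Nat.Coprime v R) :
    ∃ k : ℕ, k ≡ 1 [MOD R] ∧ Nat.Coprime k v ∧ jacobiSym (k : ℤ) v = -1 := by
  have hvf : Fact v.Prime := ⟨hvp⟩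
  obtain ⟨g, hg⟩ := FiniteField.exists_nonsquare (F := ZMod v)
    (by rw [ZMod.ringChar_zmod_n]; exact hv2)
  obtain ⟨k, hk1, hk2⟩ := Nat.chineseRemainder hc g.val 1
  have hkv : ((k : ℕ) : ZMod v) = g := by
    rw [(ZMod.natCast_eq_natCast_iff k g.val v).2 hk1, ZMod.natCast_zmod_val]
  refine ⟨k, hk2, ?_, ?_⟩
  · rw [Nat.coprime_comm, Nat.Prime.coprime_iff_not_dvd hvp]
    intro h
    rw [← ZMod.natCast_eq_zero_iff, hkv] at h
    exact hg (h ▸ IsSquare.zero)
  · rw [leg, legendreSym.eq_neg_one_iff]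
    rw [Int.cast_natCast, hkv]
    exact hg

theorem cop_of_modEq_one {k R : ℕ} (h : k ≡ 1 [MOD R]) : Nat.Coprime k R := by
  have := h.gcd_eq
  rw [Nat.gcd_one_left] at this
  exact this

theorem jac_one {k R : ℕ} (h : k ≡ 1 [MOD R]) : jacobiSym (k : ℤ) R = 1 := by
  have h1 : jacobiSym (k : ℤ) R = jacobiSym ((1 : ℕ) : ℤ) R :=
    jacobiSym.mod_left' ((Int.natCast_modEq_iff).2 h)
  rw [h1, Nat.cast_one, jacobiSym.one_left]

theorem small_V (h : Ok G) (M : ℕ) (V : Finset ℕ) (hVU : V ⊆ UU G.L) (hV : V.Nonempty)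
    (h3 : 2 ∉ V) : ∃ k, Nat.Coprime k (AP G.L) ∧ (∏ i ∈ V, cd M i) k = -1 := by
  obtain ⟨j, hj⟩ := hV
  have hj' := hVU hj
  unfold UU U0 at hj'
  rw [mem_insert, mem_insert, mem_insert] at hj'
  have hodd : Nat.Coprime 8 (∏ l ∈ G.L, l) := by
    rw [Nat.coprime_prod_right_iff]
    intro l hl
    have h2 := (h.hL l hl).2.1
    have h1 := (h.hL l hl).1
    have : Nat.Coprime 2 l := (Nat.coprime_primes Nat.prime_two h1).2 h2.symm
    exact Nat.Coprime.pow_left 3 this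
  -- the case of the characters modulo 8
  have hmod8 : ∀ j : ℕ, j ∈ V → ∀ r : ℕ, Nat.Coprime r 8 →
      cd M j r = -1 → (j = 0 ∨ j = 1) → (∀ i : ℕ, (i = 0 ∨ i = 1) → i ≠ j → cd M i r = 1) →
      ∃ k, Nat.Coprime k (AP G.L) ∧ (∏ i ∈ V, cd M i) k = -1 := by
    intro j hj r hr hjr hj01 hi01
    obtain ⟨k, hk1, hk2⟩ := Nat.chineseRemainder hodd r 1
    have hcong : ∀ i : ℕ, (i = 0 ∨ i = 1) → cd M i k = cd M i r := by
      rintro i (rfl | rfl)
      · rw [cd_0]; exact c0_mod k r (hk1.of_dvd (by norm_num))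
      · rw [cd_1]; exact c1_mod k r hk1
    refine ⟨k, ?_, ?_⟩
    · refine Nat.Coprime.mul_right ?_ (cop_of_modEq_one hk2)
      have := hk1.gcd_eq
      unfold Nat.Coprime
      rw [this]
      exact hr
    · refine prod_neg M V j hj k (by rw [hcong j hj01, hjr]) fun i hi hij => ?_
      have hi' := hVU hi
      unfold UU U0 at hi'
      rw [mem_insert, mem_insert, mem_insert] at hi'
      rcases hi' with h | h | h | hi'
      · exact absurd (h ▸ hi) h3
      · rw [hcong i (Or.inl h), hi01 i (Or.inl h) hij]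
      · rw [hcong i (Or.inr h), hi01 i (Or.inr h) hij]
      · rw [cd_l M i (L3 h hi')]
        show ((jacobiSym (k : ℤ) i : ℤ) : ℝ) = 1
        rw [jac_one (hk2.of_dvd (dvd_prod_of_mem (fun l => l) hi'))]
        simp
  have a1 : ZMod.χ₄ ((7 : ℕ) : ZMod 4) = -1 := by decide
  have a2 : ZMod.χ₈ ((7 : ℕ) : ZMod 8) = 1 := by decide
  have b1 : ZMod.χ₄ ((5 : ℕ) : ZMod 4) = 1 := by decide
  have b2 : ZMod.χ₈ ((5 : ℕ) : ZMod 8) = -1 := by decide
  rcases hj' with rfl | rfl | rfl | hj'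
  · exact absurd hj h3
  · refine hmod8 0 hj 7 (by norm_num) ?_ (Or.inl rfl) ?_
    · rw [cd_0]
      show ((ZMod.χ₄ ((7 : ℕ) : ZMod 4) : ℤ) : ℝ) = -1
      rw [a1]; simp
    · rintro i (rfl | rfl) hne
      · exact absurd rfl hne
      · rw [cd_1]
        show ((ZMod.χ₈ ((7 : ℕ) : ZMod 8) : ℤ) : ℝ) = 1
        rw [a2]; simp
  · refine hmod8 1 hj 5 (by norm_num) ?_ (Or.inr rfl) ?_
    · rw [cd_1]
      show ((ZMod.χ₈ ((5 : ℕ) : ZMod 8) : ℤ) : ℝ) = -1
      rw [b2]; simp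
    · rintro i (rfl | rfl) hne
      · rw [cd_0]
        show ((ZMod.χ₄ ((5 : ℕ) : ZMod 4) : ℤ) : ℝ) = 1
        rw [b1]; simp
      · exact absurd rfl hne
  · -- the Jacobi symbol modulo `j`
    have hjp := (h.hL j hj').1
    have hj2 := (h.hL j hj').2.1
    have hAP : AP G.L = j * (8 * ∏ l ∈ G.L.erase j, l) := by
      unfold AP
      rw [← mul_prod_erase G.L (fun l => l) hj']
      ring
    have hcop : Nat.Coprime j (8 * ∏ l ∈ G.L.erase j, l) := by
      refine Nat.Coprime.mul_right ?_ ?_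
      · have : Nat.Coprime j 2 := (Nat.coprime_primes hjp Nat.prime_two).2 hj2
        exact Nat.Coprime.pow_right 3 this
      · rw [Nat.coprime_prod_right_iff]
        intro l hl
        exact (Nat.coprime_primes hjp (h.hL l (mem_of_mem_erase hl)).1).2
          (ne_of_mem_erase hl).symm
    obtain ⟨k, hk1, hk2, hk3⟩ := exK j _ hjp hj2 hcop
    refine ⟨k, ?_, ?_⟩
    · rw [hAP]
      exact Nat.Coprime.mul_right hk2 (cop_of_modEq_one hk1)
    · refine prod_neg M V j hj k ?_ fun i hi hij => ?_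
      · rw [cd_l M j (L3 h hj')]
        show ((jacobiSym (k : ℤ) j : ℤ) : ℝ) = -1
        rw [hk3]; simp
      · have hi' := hVU hi
        unfold UU U0 at hi'
        rw [mem_insert, mem_insert, mem_insert] at hi'
        have h8 : k ≡ 1 [MOD 8] := hk1.of_dvd (dvd_mul_right _ _)
        rcases hi' with h' | h' | h' | hi'
        · exact absurd (h' ▸ hi) h3
        · rw [h', cd_0, c0_mod k 1 (h8.of_dvd (by norm_num)), map_one]
        · rw [h', cd_1, c1_mod k 1 h8, map_one]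
        · rw [cd_l M i (L3 h hi')]
          show ((jacobiSym (k : ℤ) i : ℤ) : ℝ) = 1
          rw [jac_one (hk1.of_dvd (dvd_mul_of_dvd_right
            (dvd_prod_of_mem (fun l => l) (mem_erase.2 ⟨hij, hi'⟩)) _))]
          simp

/-- a number congruent to one modulo the fixed part which is a nonresidue modulo the product of the
primes -/
theorem exW (h : Ok G) (W : Finset ℕ) (hW : W.Nonempty) (hp : ∀ u ∈ W, u.Prime ∧ Hc G u) :
    ∃ k : ℕ, k ≡ 1 [MOD AP G.L] ∧ Nat.Coprime k (∏ u ∈ W, u) ∧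
      jacobiSym (k : ℤ) (∏ u ∈ W, u) = -1 := by
  obtain ⟨v, hv⟩ := hW
  have hvp := (hp v hv).1
  have hv8 := (hp v hv).2.1
  have hv2 : v ≠ 2 := by rintro rfl; omega
  have hM : ∏ u ∈ W, u = v * ∏ u ∈ W.erase v, u := (mul_prod_erase W (fun u => u) hv).symm
  have hcop : Nat.Coprime v (AP G.L * ∏ u ∈ W.erase v, u) := by
    refine Nat.Coprime.mul_right (Nat.Coprime.mul_right ?_ ?_) ?_
    · have : Nat.Coprime v 2 := (Nat.coprime_primes hvp Nat.prime_two).2 hv2
      exact Nat.Coprime.pow_right 3 this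
    · rw [Nat.coprime_prod_right_iff]
      intro l hl
      have hlp := (h.hL l hl).1
      rw [Nat.coprime_primes hvp hlp]
      rintro rfl
      have h6 := (hp v hv).2.2 v hl
      have : Fact v.Prime := ⟨hvp⟩
      rw [leg, (legendreSym.eq_zero_iff v v).2 (by simp)] at h6
      exact zero_ne_one h6
    · rw [Nat.coprime_prod_right_iff]
      intro u hu
      exact (Nat.coprime_primes hvp (hp u (mem_of_mem_erase hu)).1).2 (ne_of_mem_erase hu).symm
  obtain ⟨k, hk1, hk2, hk3⟩ := exK v _ hvp hv2 hcop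
  have hQ0 : ∏ u ∈ W.erase v, u ≠ 0 := by
    rw [prod_ne_zero_iff]
    intro u hu
    exact (hp u (mem_of_mem_erase hu)).1.ne_zero
  have hkA : k ≡ 1 [MOD AP G.L] := hk1.of_dvd (dvd_mul_right _ _)
  have hkQ : k ≡ 1 [MOD ∏ u ∈ W.erase v, u] := hk1.of_dvd (dvd_mul_left _ _)
  have : NeZero v := ⟨hvp.ne_zero⟩
  have : NeZero (∏ u ∈ W.erase v, u) := ⟨hQ0⟩
  refine ⟨k, hkA, ?_, ?_⟩
  · rw [hM]
    exact Nat.Coprime.mul_right hk2 (cop_of_modEq_one hkQ)
  · rw [hM, jacobiSym.mul_right, hk3, jac_one hkQ, mul_one]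

theorem M17 (W : Finset ℕ) (hW : W.Nonempty) (hp : ∀ u ∈ W, u.Prime ∧ Hc G u) :
    17 ≤ ∏ u ∈ W, u := by
  obtain ⟨v, hv⟩ := hW
  have h1 : v ∣ ∏ u ∈ W, u := dvd_prod_of_mem (fun u => u) hv
  have h2 : 0 < ∏ u ∈ W, u := prod_pos fun u hu => (hp u hu).1.pos
  have h4 : 17 ≤ v := by
    have a1 := (hp v hv).1
    have a2 := (hp v hv).2.1
    by_contra hlt
    have a3 : v = 1 ∨ v = 9 := by omega
    rcases a3 with rfl | rfl
    · exact absurd a1 (by norm_num)
    · exact absurd a1 (by norm_num)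
  exact h4.trans (Nat.le_of_dvd h2 h1)

theorem log_one_le {M : ℕ} (hM : 17 ≤ M) : 1 ≤ Real.log (M : ℝ) := by
  have h6 : Real.log 16 ≤ Real.log M :=
    Real.log_le_log (by norm_num) (by exact_mod_cast (by omega : 16 ≤ M))
  have h7 : Real.log 16 = 4 * Real.log 2 := by
    rw [← Real.log_rpow (by norm_num)]
    norm_num
  have h8 := Real.log_two_gt_d9
  linarith

/-- the bounds of the L-functions -/
theorem L_le (h : Ok G) (W : Finset ℕ) (hW : W.Nonempty) (hp : ∀ u ∈ W, u.Prime ∧ Hc G u)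
    (V : Finset ℕ) (hVU : V ⊆ UU G.L) (hV : V.Nonempty) (σ : ℝ) (hσ : 1 < σ) :
    ∑' n : ℕ, (∏ i ∈ V, cd (∏ u ∈ W, u) i) n * (n : ℝ) ^ (-σ) ≤
      (4 + Real.log (AP G.L)) * if 2 ∈ V then Real.log ((∏ u ∈ W, u : ℕ) : ℝ) else 1 := by
  have hM17 := M17 W hW hp
  obtain ⟨k, hk1, hk2, hk3⟩ := exW h W hW hp
  generalize ∏ u ∈ W, u = M at hM17 hk2 hk3 ⊢
  have hA1 : 1 ≤ AP G.L := AP_pos h
  have hlA : 0 ≤ Real.log (AP G.L : ℝ) := Real.log_nonneg (by exact_mod_cast hA1)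
  have hlM := log_one_le hM17
  split_ifs with h3
  · have hq : 1 ≤ AP G.L * M := Nat.mul_pos hA1 (by omega)
    have hper : ∀ n, (∏ i ∈ V, cd M i) (AP G.L * M + n) = (∏ i ∈ V, cd M i) n := by
      intro n
      refine cd_mod h M V hVU _ _ ?_ fun _ => ?_
      · show (AP G.L * M + n) % AP G.L = n % AP G.L
        rw [Nat.mul_add_mod]
      · show (AP G.L * M + n) % M = n % M
        rw [mul_comm (AP G.L) M, Nat.mul_add_mod]
    have hkneg : (∏ i ∈ V, cd M i) k = -1 := by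
      refine prod_neg M V 2 h3 k ?_ fun i hi hne => ?_
      · rw [cd_2]
        show ((jacobiSym (k : ℤ) M : ℤ) : ℝ) = -1
        rw [hk3]; simp
      · rw [cd_mod1 h M i k 1 (hVU hi) hk1 (fun e => absurd e hne), map_one]
    have hz := sum_zero (∏ i ∈ V, cd M i) (AP G.L * M) hq hper k
      (Nat.Coprime.mul_right (cop_of_modEq_one hk1) hk2) hkneg
    have h5 := tsum_le (fun n => (∏ i ∈ V, cd M i) n) (AP G.L * M) hq (abs_cd M V)
      (part_le _ (AP G.L * M) hq (abs_cd M V) hper hz) σ hσ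
    refine h5.trans ?_
    rw [Nat.cast_mul, Real.log_mul (by exact_mod_cast (by omega : AP G.L ≠ 0))
      (by exact_mod_cast (by omega : M ≠ 0))]
    nlinarith
  · obtain ⟨k', hk1', hk2'⟩ := small_V h M V hVU hV h3
    have hper : ∀ n, (∏ i ∈ V, cd M i) (AP G.L + n) = (∏ i ∈ V, cd M i) n := by
      intro n
      refine cd_mod h M V hVU _ _ ?_ fun h => absurd h h3
      show (AP G.L + n) % AP G.L = n % AP G.L
      rw [Nat.add_mod_left]
    have hz := sum_zero (∏ i ∈ V, cd M i) (AP G.L) hA1 hper k' hk1' hk2'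
    have h5 := tsum_le (fun n => (∏ i ∈ V, cd M i) n) (AP G.L) hA1 (abs_cd M V)
      (part_le _ (AP G.L) hA1 (abs_cd M V) hper hz) σ hσ
    refine h5.trans ?_
    linarith

/-- the symbols of a split prime -/
theorem cd_one (h : Ok G) (W : Finset ℕ) (hp : ∀ u ∈ W, u.Prime ∧ Hc G u) (p : ℕ) (hs : Sp G p)
    (hpW : p ∉ W) (hs0 : ∑ u ∈ W, nr p u = 0) (i : ℕ) (hi : i ∈ UU G.L) :
    cd (∏ u ∈ W, u) i p = 1 := by
  obtain ⟨h1, h2, h3⟩ := hs
  have hpf : Fact p.Prime := ⟨h1⟩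
  unfold UU U0 at hi
  rw [mem_insert, mem_insert, mem_insert] at hi
  rcases hi with rfl | rfl | rfl | hi
  · rw [cd_2]
    show ((jacobiSym (p : ℤ) (∏ u ∈ W, u) : ℤ) : ℝ) = 1
    have key : ∀ W' : Finset ℕ, W' ⊆ W →
        jacobiSym (p : ℤ) (∏ u ∈ W', u) = if ∑ u ∈ W', nr p u = 0 then 1 else -1 := by
      intro W'
      induction W' using Finset.induction_on with
      | empty => intro _; simp
      | insert a s ha ih =>
        intro hs'
        have haW : a ∈ W := hs' (mem_insert_self a s)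
        have ihs := ih ((subset_insert a s).trans hs')
        have hap := (hp a haW).1
        have ha8 := (hp a haW).2.1
        have haf : Fact a.Prime := ⟨hap⟩
        have : NeZero a := ⟨hap.ne_zero⟩
        have : NeZero (∏ u ∈ s, u) := ⟨by
          rw [prod_ne_zero_iff]
          intro u hu
          exact (hp u (hs' (mem_insert_of_mem hu))).1.ne_zero⟩
        rw [prod_insert ha, sum_insert ha, jacobiSym.mul_right, ihs]
        have hodd : Odd a := Nat.odd_iff.2 (by omega)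
        have hrec : jacobiSym (p : ℤ) a = jacobiSym (a : ℤ) p :=
          jacobiSym.quadratic_reciprocity_one_mod_four (by omega) hodd
        have hne : ((a : ℤ) : ZMod p) ≠ 0 := by
          intro h0
          rw [Int.cast_natCast, ZMod.natCast_eq_zero_iff] at h0
          have := (Nat.prime_dvd_prime_iff_eq h1 hap).1 h0
          exact hpW (this ▸ haW)
        have hval : jacobiSym (p : ℤ) a = if nr p a = 0 then 1 else -1 := by
          rw [hrec, leg]
          unfold nr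
          by_cases hsq : IsSquare (a : ZMod p)
          · rw [if_pos hsq, if_pos rfl]
            exact (legendreSym.eq_one_iff p hne).2 (by rwa [Int.cast_natCast])
          · rw [if_neg hsq, if_neg (by decide)]
            exact (legendreSym.eq_neg_one_iff p).2 (by rwa [Int.cast_natCast])
        rw [hval]
        have hz : ∀ x y : ZMod 2, (if x = 0 then (1 : ℤ) else -1) * (if y = 0 then 1 else -1) =
            if x + y = 0 then 1 else -1 := by decide
        exact hz _ _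
    rw [key W Subset.rfl, if_pos hs0]
    simp
  · rw [cd_0, c0_mod p 1 (show p % 4 = 1 % 4 by omega), map_one]
  · rw [cd_1, c1_mod p 1 (show p % 8 = 1 % 8 by omega), map_one]
  · rw [cd_l _ i (L3 h hi)]
    show ((jacobiSym (p : ℤ) i : ℤ) : ℝ) = 1
    rw [h3 i hi]
    simp

end

theorem t_HAL : S_HAL := by
  intro G hG
  obtain ⟨C₁, hC₁⟩ : ∃ C₁ : ℝ, C₁ = 4 + Real.log (AP G.L) := ⟨_, rfl⟩
  have hA1 : 1 ≤ AP G.L := AP_pos hG
  have hlA : 0 ≤ Real.log (AP G.L : ℝ) := Real.log_nonneg (by exact_mod_cast hA1)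
  have hC1 : 1 ≤ C₁ := by rw [hC₁]; linarith
  refine ⟨9 * C₁, by linarith, fun W T hW hp hT => ?_⟩
  have hL_le := L_le hG W hW hp
  rw [← hC₁] at hL_le
  have hM17 := M17 W hW hp
  have hcd1 := cd_one hG W hp
  set M := ∏ u ∈ W, u with hM
  have hM1 : 1 ≤ Real.log (M : ℝ) := log_one_le hM17
  have lT : 0 < Real.log T := Real.log_pos (by exact_mod_cast (by omega : 1 < T))
  obtain ⟨σ, hσd⟩ : ∃ σ : ℝ, σ = 1 + 1 / Real.log T := ⟨_, rfl⟩
  have hσ : 1 < σ := by
    rw [hσd]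
    have : 0 < 1 / Real.log T := by positivity
    linarith
  obtain ⟨P, hPd⟩ : ∃ P : Finset ℕ, P = (range (T + 1)).filter
    (fun p => Sp G p ∧ p ∉ W ∧ ∑ u ∈ W, nr p u = 0) := ⟨_, rfl⟩
  have hP : ∀ p ∈ P, Sp G p ∧ p ∉ W ∧ ∑ u ∈ W, nr p u = 0 := by
    intro p hp'
    rw [hPd, mem_filter] at hp'
    exact hp'.2
  have hmain := main_le (cd M) (UU G.L) (fun i _ n => cd_val M i n) σ hσ P
    (fun p h => (hP p h).1.1) (fun i hi p h => hcd1 p (hP p h).1 (hP p h).2.1 (hP p h).2.2 i hi)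
  -- the product of the values
  have hlog2 := Real.log_two_gt_d9
  have lT2 : Real.log 2 ≤ Real.log T := Real.log_le_log (by norm_num) (by exact_mod_cast hT)
  have hprod : ∏ V ∈ (UU G.L).powerset,
      ∑' n : ℕ, (∏ i ∈ V, cd M i) n * (n : ℝ) ^ (-σ) ≤
      3 * Real.log T * C₁ ^ (2 ^ (G.L.card + 3)) * (Real.log (M : ℝ)) ^ (2 ^ (G.L.card + 2)) := by
    have h1 : ∏ V ∈ (UU G.L).powerset,
        ∑' n : ℕ, (∏ i ∈ V, cd M i) n * (n : ℝ) ^ (-σ) ≤
        ∏ V ∈ (UU G.L).powerset, ((if V = ∅ then 3 * Real.log T else 1) * (C₁ *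
          (if 2 ∈ V then Real.log (M : ℝ) else 1))) := by
      refine prod_le_prod (fun V hV => hmain.2 V hV) fun V hVU => ?_
      by_cases hVe : V = ∅
      · rw [if_pos hVe, hVe]
        have e : ∑' n : ℕ, (∏ i ∈ (∅ : Finset ℕ), cd M i) n * (n : ℝ) ^ (-σ) =
            ∑' n : ℕ, (1 : ℝ) * (n : ℝ) ^ (-σ) := by
          refine tsum_congr fun n => ?_
          rw [prod_empty]
          rfl
        rw [e, if_neg (notMem_empty 2), mul_one]
        refine (zeta_le σ hσ).trans ?_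
        have e2 : 1 / (σ - 1) = Real.log T := by
          rw [hσd]
          field_simp
          ring
        rw [e2]
        nlinarith
      · rw [if_neg hVe, one_mul]
        exact hL_le V (mem_powerset.1 hVU) (nonempty_iff_ne_empty.2 hVe) σ hσ
    refine h1.trans (le_of_eq ?_)
    rw [prod_mul_distrib, prod_mul_distrib, prod_const, card_powerset, card_UU hG,
      prod_ite_eq' (UU G.L).powerset ∅ (fun _ => 3 * Real.log T), if_pos (empty_mem_powerset _)]
    have e3 : ∏ V ∈ (UU G.L).powerset, (if 2 ∈ V then Real.log (M : ℝ) else 1) =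
        (Real.log (M : ℝ)) ^ (2 ^ (G.L.card + 2)) := by
      have hU : (UU G.L).powerset = (insert 2 (U0 G.L)).powerset := rfl
      rw [hU, prod_powerset_insert (two_not hG)]
      have e4 : ∏ V ∈ (U0 G.L).powerset, (if 2 ∈ V then Real.log (M : ℝ) else 1) = 1 :=
        prod_eq_one fun V hV => if_neg fun h => two_not hG (mem_powerset.1 hV h)
      have e5 : ∏ V ∈ (U0 G.L).powerset, (if 2 ∈ insert 2 V then Real.log (M : ℝ) else 1) =
          (Real.log (M : ℝ)) ^ (2 ^ (G.L.card + 2)) := by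
        rw [prod_congr rfl fun V _ => if_pos (mem_insert_self 2 V), prod_const, card_powerset,
          card_U0 hG]
      rw [e4, e5, one_mul]
    rw [e3]
    ring
  have hbig := hmain.1.trans hprod
  rw [card_UU hG] at hbig
  -- the sum
  have hx : ∀ p ∈ P, 0 < (p : ℝ) ^ (-σ) ∧ (p : ℝ) ^ (-σ) < 1 := fun p h =>
    pow_small p (hP p h).1.1.two_le σ hσ
  have hsum : ∑ S ∈ HD G W T, (1 : ℝ) / ((∏ p ∈ S, p : ℕ) : ℝ) ≤
      3 * ∏ p ∈ P, (1 - (p : ℝ) ^ (-σ))⁻¹ := by
    have s1 : ∑ S ∈ HD G W T, (1 : ℝ) / ((∏ p ∈ S, p : ℕ) : ℝ) ≤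
        ∑ S ∈ P.powerset, 3 * ∏ p ∈ S, (p : ℝ) ^ (-σ) := by
      have hsub : HD G W T ⊆ P.powerset := by
        intro S hS
        unfold HD at hS
        rw [mem_filter, mem_powerset] at hS
        rw [mem_powerset]
        intro p hpS
        rw [hPd, mem_filter]
        exact ⟨hS.1 hpS, hS.2.1 p hpS⟩
      refine le_trans (sum_le_sum fun S hS => ?_) (sum_le_sum_of_subset_of_nonneg hsub
        fun S hS _ => ?_)
      · have hSP := hsub hS
        rw [mem_powerset] at hSP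
        unfold HD at hS
        rw [mem_filter] at hS
        have hle := hS.2.2
        have hpos : 0 < ∏ p ∈ S, p := prod_pos fun p h => (hP p (hSP h)).1.1.pos
        have e : ∏ p ∈ S, (p : ℝ) ^ (-σ) = ((∏ p ∈ S, p : ℕ) : ℝ) ^ (-σ) := by
          rw [Nat.cast_prod, Real.finsetProd_rpow]
          intro p _
          exact Nat.cast_nonneg p
        rw [e]
        generalize ∏ p ∈ S, p = N at hle hpos ⊢
        have hN : (0 : ℝ) < (N : ℝ) := by exact_mod_cast hpos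
        have hNT : (N : ℝ) ≤ (T : ℝ) := by exact_mod_cast hle
        have hN1 : (1 : ℝ) ≤ (N : ℝ) := by exact_mod_cast hpos
        have h2 : (N : ℝ) ^ (σ - 1) ≤ 3 := by
          have a1 : (N : ℝ) ^ (σ - 1) = Real.exp (Real.log N * (σ - 1)) :=
            Real.rpow_def_of_pos hN _
          have a2 : Real.log N * (σ - 1) ≤ 1 := by
            have a3 : σ - 1 = 1 / Real.log T := by rw [hσd]; ring
            rw [a3, mul_one_div, div_le_one lT]
            exact Real.log_le_log hN hNT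
          rw [a1]
          exact (Real.exp_le_exp.2 a2).trans (Real.exp_one_lt_d9.le.trans (by norm_num))
        have h3 : (N : ℝ) ^ (σ - 1) * (N : ℝ) ^ (-σ) = 1 / N := by
          rw [← Real.rpow_add hN]
          have : σ - 1 + -σ = -1 := by ring
          rw [this, Real.rpow_neg_one, one_div]
        rw [← h3]
        exact mul_le_mul_of_nonneg_right h2 (Real.rpow_nonneg hN.le _)
      · refine mul_nonneg (by norm_num) (prod_nonneg fun p _ => Real.rpow_nonneg (Nat.cast_nonneg _) _)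
    refine s1.trans ?_
    rw [← mul_sum, ← prod_one_add]
    refine mul_le_mul_of_nonneg_left (prod_le_prod (fun p h => ?_) fun p h => ?_) (by norm_num)
    · have := (hx p h).1
      positivity
    · obtain ⟨a1, a2⟩ := hx p h
      rw [← one_div, le_div_iff₀ (by linarith)]
      nlinarith
  generalize ∏ p ∈ P, (1 - (p : ℝ) ^ (-σ))⁻¹ = Q at hbig hsum
  have hH0 : 0 ≤ ∑ S ∈ HD G W T, (1 : ℝ) / ((∏ p ∈ S, p : ℕ) : ℝ) :=
    sum_nonneg fun S _ => by positivity
  generalize ∑ S ∈ HD G W T, (1 : ℝ) / ((∏ p ∈ S, p : ℕ) : ℝ) = H at hsum hH0 ⊢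
  have hY0 : 0 < Real.log (M : ℝ) := by linarith
  generalize Real.log (M : ℝ) = Y at hbig hY0 ⊢
  generalize hn : G.L.card + 2 = n at hbig
  have hn3 : G.L.card + 3 = n + 1 := by omega
  rw [hn3] at hbig ⊢
  have hN0 : (2 : ℕ) ^ (n + 1) ≠ 0 := by positivity
  apply le_of_pow_le_pow_left₀ (n := 2 ^ (n + 1)) hN0 (by positivity)
  have e1 : (9 * C₁ * Y ^ (1 / 2 : ℝ) * Real.log T ^ ((1 : ℝ) / 2 ^ (n + 1))) ^ (2 ^ (n + 1)) =
      (9 * C₁) ^ (2 ^ (n + 1)) * Y ^ (2 ^ n) * Real.log T := by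
    rw [mul_pow, mul_pow, ← Real.rpow_natCast (Y ^ (1 / 2 : ℝ)), ← Real.rpow_mul hY0.le,
      ← Real.rpow_natCast (Real.log T ^ ((1 : ℝ) / 2 ^ (n + 1))), ← Real.rpow_mul lT.le]
    have e2 : (1 / 2 : ℝ) * ((2 ^ (n + 1) : ℕ) : ℝ) = ((2 ^ n : ℕ) : ℝ) := by
      push_cast
      rw [pow_succ]
      ring
    have e3 : (1 : ℝ) / 2 ^ (n + 1) * ((2 ^ (n + 1) : ℕ) : ℝ) = 1 := by
      push_cast
      exact one_div_mul_cancel (by positivity)
    rw [e2, e3, Real.rpow_one, Real.rpow_natCast]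
  rw [e1]
  have h3le : (3 : ℝ) ≤ 3 ^ (2 ^ (n + 1)) := by
    calc (3 : ℝ) = 3 ^ 1 := (pow_one 3).symm
      _ ≤ 3 ^ (2 ^ (n + 1)) := pow_le_pow_right₀ (by norm_num) (Nat.one_le_iff_ne_zero.2 hN0)
  have hpos : 0 ≤ C₁ ^ (2 ^ (n + 1)) * (Y ^ (2 ^ n) * Real.log T) := by positivity
  calc H ^ (2 ^ (n + 1)) ≤ (3 * Q) ^ (2 ^ (n + 1)) := pow_le_pow_left₀ hH0 hsum _
    _ = 3 ^ (2 ^ (n + 1)) * Q ^ (2 ^ (n + 1)) := mul_pow _ _ _
    _ ≤ 3 ^ (2 ^ (n + 1)) * (3 * Real.log T * C₁ ^ (2 ^ (n + 1)) * Y ^ (2 ^ n)) :=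
        mul_le_mul_of_nonneg_left hbig (by positivity)
    _ = (3 ^ (2 ^ (n + 1)) * 3) * (C₁ ^ (2 ^ (n + 1)) * (Y ^ (2 ^ n) * Real.log T)) := by ring
    _ ≤ (3 ^ (2 ^ (n + 1)) * 3 ^ (2 ^ (n + 1))) *
          (C₁ ^ (2 ^ (n + 1)) * (Y ^ (2 ^ n) * Real.log T)) :=
        mul_le_mul_of_nonneg_right (mul_le_mul_of_nonneg_left h3le (by positivity)) hpos
    _ = (9 * C₁) ^ (2 ^ (n + 1)) * Y ^ (2 ^ n) * Real.log T := by
        rw [← mul_pow, mul_pow 9 C₁]
        norm_num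
        ring

end Pool.Agent.U158.GD
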